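import Pool.Agent.ISO.StmtsZ
import Pool.Agent.Helper32_OMP.Assembly

/-!
# Squad ISO, row ZAS: the strata away from the points of `T`
-/

set_option autoImplicit false
set_option linter.unusedVariables false
set_option linter.unusedSectionVars false

namespace Pool.Agent.ISO.Z.H42

open PowerSeries Finset Pool.Agent.Helper6_Mono Pool.Agent.Helper32_OMP Pool.Agent.ISO

/-- a sequence with steps in `S` gives an element of the ring of rational series -/
theorem rp_zetaRing {k : Type} [Field k] {σ : Type} [Fintype σ] (f : MvPolynomial σ k) (S : Set ℚ)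
    (hS : ∀ x ∈ S, 0 < x) (u : ℕ → MM f) (hRP : RP (LL f) (steps S) u) :
    ∃ P : Finset (ℤ × ℕ), (∀ p ∈ P, p.1 < 0 ∧ 0 < p.2 ∧ -((p.1 : ℚ) / p.2) ∈ S) ∧
      PowerSeries.mk u ∈ zetaRing f P := by
  obtain ⟨Dn, hDn, Q, hQ⟩ := hRP.toRG
  obtain ⟨P, hP, E, hE, hE1⟩ := denoms_inv (LL f) hS hDn
  refine ⟨P, hP, ?_⟩
  have e1 : PowerSeries.mk u = E * (Q : PowerSeries (MM f)) := by
    rw [← hQ, ← mul_assoc, hE1, one_mul]
  rw [e1]
  have hgen : ({PowerSeries.X} ∪ {x : PowerSeries (MM f) | ∃ p ∈ P,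
        x * (1 - PowerSeries.C ((LL f ^ p.1 : (MM f)ˣ) : MM f) * PowerSeries.X ^ p.2) = 1})
      = gens f P := rfl
  rw [hgen] at hE
  show E * (Q : PowerSeries (MM f)) ∈ Algebra.adjoin (MM f) (gens f P)
  refine mul_mem hE ?_
  have hX : (PowerSeries.X : PowerSeries (MM f)) ∈ Algebra.adjoin (MM f) (gens f P) :=
    Algebra.subset_adjoin (Or.inl rfl)
  clear hQ e1
  induction Q using Polynomial.induction_on' with
  | add p q hp hq =>
    rw [Polynomial.coe_add]
    exact add_mem hp hq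
  | monomial n c =>
    rw [← Polynomial.C_mul_X_pow_eq_monomial, Polynomial.coe_mul, Polynomial.coe_C,
      Polynomial.coe_pow, Polynomial.coe_X]
    exact mul_mem (Subalgebra.algebraMap_mem _ c) (pow_mem hX n)

theorem zetaRing_mono {k : Type} [Field k] {σ : Type} [Fintype σ] (f : MvPolynomial σ k)
    {P Q : Finset (ℤ × ℕ)} (h : P ⊆ Q) {x : PowerSeries (MM f)} (hx : x ∈ zetaRing f P) :
    x ∈ zetaRing f Q := by
  have h1 : gens f P ⊆ gens f Q := by
    rintro y (hy | ⟨p, hp, hy⟩)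
    · exact Or.inl hy
    · exact Or.inr ⟨p, h hp, hy⟩
  exact Algebra.adjoin_mono h1 hx

theorem zetaRing_add {k : Type} [Field k] {σ : Type} [Fintype σ] (f : MvPolynomial σ k)
    {P : Finset (ℤ × ℕ)} {x y : PowerSeries (MM f)} (hx : x ∈ zetaRing f P)
    (hy : y ∈ zetaRing f P) : x + y ∈ zetaRing f P :=
  show x + y ∈ Algebra.adjoin (MM f) (gens f P) from add_mem hx hy

theorem zetaRing_sum {k : Type} [Field k] {σ : Type} [Fintype σ] (f : MvPolynomial σ k)
    {P : Finset (ℤ × ℕ)} {α : Type} (T : Finset α) {x : α → PowerSeries (MM f)}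
    (hx : ∀ p ∈ T, x p ∈ zetaRing f P) : ∑ p ∈ T, x p ∈ zetaRing f P :=
  show ∑ p ∈ T, x p ∈ Algebra.adjoin (MM f) (gens f P) from Subalgebra.sum_mem _ hx

/-- the strata away from the points of `T`, for an arbitrary invariant -/
theorem away_rat {k : Type} [Field k] [Algebra k ℂ] {σ ι : Type} [Fintype σ] [Fintype ι]
    {R : Type 1} [CommRing R] {L : Rˣ} (χ : SInv k (fun _ : σ => (0 : QZ)) L)
    (f : ι → MvPolynomial σ k) (a : ι → ℕ) (ha : ∀ i, 0 < a i) (c : k) (hc : c ≠ 0)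
    (T : Finset (σ → k)) (hA : SncOut f T) :
    ∃ u : ℕ → R, RP L (steps {x | ∃ i, x = 1 / (a i : ℚ)}) u ∧ ∀ (m : ℕ) (hm : m ≠ 0),
      Li L ^ (m * Fintype.card σ) * χ.χ ((lp0 f a c m hm).K.app (affY k σ (0 : QZ))) =
        ∑ p ∈ T, Li L ^ (m * Fintype.card σ) * χ.χ ((lp0 f a c m hm).K.app (ptP QZ p)) +
          u m := by
  classical
  have hPat : PatStmt := H64.pat H48.nul H3.minor
  have hL0 : Loc0Stmt := loc0 cellStmt H37.tor
  have hAw : AwayStmt := H84.away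
  have hGf : GenfStmt := H64.genf
  -- removing the points
  have hAw' : ∃ F : Finset (Finset (T × σ)), (∀ V ∈ F, ∀ p : T, ∃ l, (p, l) ∈ V) ∧
      ∀ ψ : SInv k (fun _ : σ => (0 : QZ)) L,
        ψ.χ (affY k σ (0 : QZ)) = ∑ p ∈ T, ψ.χ (ptP QZ p) +
          ∑ V ∈ F, ψ.χ (polZ (affY k σ (0 : QZ)) (fun t : T × σ => MvPolynomial.X t.2
            - MvPolynomial.C ((t.1 : σ → k) t.2)) (fun t => hom_zero _) V) :=
    ⟨_, fun V hV => (Finset.mem_filter.1 hV).2, fun ψ => hAw k σ R L ψ T⟩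
  obtain ⟨F, hF, hAF⟩ := hAw'
  -- strata away from the points
  have h0 : ∀ (V : Finset (T × σ)) (U : Finset (Th σ ι)), ∃ C₀ : R, V ∈ F →
      ∀ (m : ℕ) (hm : m ≠ 0), Li L ^ (Fintype.card σ * m) *
        (χ.comp (lp0 f a c m hm).K).χ (Zst (fun t : T × σ => MvPolynomial.X t.2
            - MvPolynomial.C ((t.1 : σ → k) t.2)) (fun t => hom_zero _) V f
              (fun i => hom_zero (f i)) U)
        = C₀ * sI L (zset U) a m := by
    intro V U
    by_cases hU : GoodP U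
    · obtain ⟨C₀, h⟩ := hL0 k σ ι R L χ f a ha c hc (T × σ) (fun t : T × σ => MvPolynomial.X t.2
            - MvPolynomial.C ((t.1 : σ → k) t.2)) V U hU
      exact ⟨C₀, fun _ m hm => h m hm⟩
    · refine ⟨0, fun hV m hm => ?_⟩
      rw [zst_bad hPat (χ.comp (lp0 f a c m hm).K) _ _ V f _ ?_ U hU, mul_zero, zero_mul]
      intro z hz
      refine hA z fun p hp h => ?_
      obtain ⟨l, hl⟩ := hF V hV ⟨p, hp⟩
      refine hz _ hl ?_
      rw [map_sub, MvPolynomial.aeval_X, MvPolynomial.algHom_C, h, sub_self]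
  choose C0 hC0 using h0
  -- the sequence
  obtain ⟨u, hu⟩ : ∃ u : ℕ → R, u = fun m =>
      ∑ V ∈ F, ∑ U : Finset (Th σ ι), C0 V U * sI L (zset U) a m := ⟨_, rfl⟩
  have hsteps : ∀ {A B : Set ℚ}, A ⊆ B → steps A ⊆ steps B := fun h p hp => ⟨hp.1, h hp.2⟩
  have hsI0 : ∀ I : Finset ι, RP L (steps {x | ∃ i, x = 1 / (a i : ℚ)}) (sI L I a) := by
    intro I
    refine ((hGf R L).1 ι I a ha).mono (hsteps ?_)
    rintro x ⟨i, -, h⟩
    exact ⟨i, h⟩
  have hRu : RP L (steps {x | ∃ i, x = 1 / (a i : ℚ)}) u := by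
    rw [hu]
    exact RP.sum _ fun V _ => RP.sum _ fun U _ => RP.smul _ (hsI0 _)
  refine ⟨u, hRu, fun m hm => ?_⟩
  have h2 := hAF (χ.comp (lp0 f a c m hm).K)
  have h3 : χ.χ ((lp0 f a c m hm).K.app (affY k σ (0 : QZ)))
      = (χ.comp (lp0 f a c m hm).K).χ (affY k σ (0 : QZ)) := rfl
  rw [h3, h2, mul_add, Finset.mul_sum, Finset.mul_sum]
  refine congrArg₂ (· + ·) (Finset.sum_congr rfl fun p _ => rfl) ?_
  rw [hu]
  refine Finset.sum_congr rfl fun V hV => ?_
  rw [zst_sum (χ.comp (lp0 f a c m hm).K) _ _ V f (fun i => hom_zero (f i)), Finset.mul_sum]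
  refine Finset.sum_congr rfl fun U _ => ?_
  rw [mul_comm m]
  exact hC0 V U hV m hm

theorem zas : ZasStmt := by
  intro k _ _ σ ι _ _ f a ha c hc T hA χ hχ S hp
  classical
  have hJ : Jy0Stmt := H93.jy0
  obtain ⟨u, hRu, hu⟩ := away_rat χ f a ha c hc T hA
  obtain ⟨v, hv⟩ : ∃ v : ℕ → MM (MvPolynomial.C c * ∏ i, f i ^ a i),
      v = fun m => if m = 0 then 0 else u m := ⟨_, rfl⟩
  have hRv : RP (LL (MvPolynomial.C c * ∏ i, f i ^ a i))
      (steps {x | ∃ i, x = 1 / (a i : ℚ)}) v := by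
    refine RP.of_shift 1 ((hRu.shift 1).congr fun m => ?_)
    rw [hv]
    show (if m + 1 = 0 then 0 else u (m + 1)) = u (m + 1)
    rw [if_neg (Nat.succ_ne_zero m)]
  have hpos : ∀ x ∈ {x : ℚ | ∃ i, x = 1 / (a i : ℚ)}, 0 < x := by
    rintro x ⟨i, rfl⟩
    have h1 : (0 : ℚ) < a i := by exact_mod_cast ha i
    exact one_div_pos.2 h1
  obtain ⟨P, hP, hPz⟩ := rp_zetaRing (MvPolynomial.C c * ∏ i, f i ^ a i) _ hpos v hRv
  -- the sequences of the points
  obtain ⟨s, hs⟩ : ∃ s : (σ → k) → ℕ → MM (MvPolynomial.C c * ∏ i, f i ^ a i), s = fun p m =>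
      if hm : m = 0 then 0 else Li (LL (MvPolynomial.C c * ∏ i, f i ^ a i)) ^
        (m * Fintype.card σ) * χ.χ ((lp0 f a c m hm).K.app (ptP QZ p)) := ⟨_, rfl⟩
  have hs0 : ∀ p, s p 0 = 0 := by
    intro p
    rw [hs]
    exact dif_pos rfl
  have hsm : ∀ p (m : ℕ) (hm : m ≠ 0), s p m =
      Li (LL (MvPolynomial.C c * ∏ i, f i ^ a i)) ^ (m * Fintype.card σ) *
        χ.χ ((lp0 f a c m hm).K.app (ptP QZ p)) := by
    intro p m hm
    rw [hs]
    exact dif_neg hm
  have hsz : ∀ p ∈ T, PowerSeries.mk (s p) ∈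
      zetaRing (MvPolynomial.C c * ∏ i, f i ^ a i) (S p) :=
    fun p hpT => hp p hpT (s p) (hs0 p) (hsm p)
  have hZf : Zf (MvPolynomial.C c * ∏ i, f i ^ a i) =
      ∑ p ∈ T, PowerSeries.mk (s p) + PowerSeries.mk v := by
    ext m
    rw [Zf, PowerSeries.coeff_mk, map_add, map_sum, PowerSeries.coeff_mk]
    have e2 : ∑ p ∈ T, (PowerSeries.coeff m) (PowerSeries.mk (s p)) = ∑ p ∈ T, s p m :=
      Finset.sum_congr rfl fun p _ => PowerSeries.coeff_mk _ _
    rw [e2]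
    unfold zetaCoeff
    by_cases hm : m = 0
    · subst hm
      rw [dif_pos rfl]
      have e3 : ∑ p ∈ T, s p 0 = 0 := Finset.sum_eq_zero fun p _ => hs0 p
      have e4 : v 0 = 0 := by
        rw [hv]
        exact if_pos rfl
      rw [e3, e4]
      exact (add_zero _).symm
    · rw [dif_neg hm]
      have hω : m • om m = 0 := by
        unfold om
        rw [← AddCircle.coe_nsmul, nsmul_eq_mul, mul_one_div_cancel (by exact_mod_cast hm)]
        exact AddCircle.coe_period 1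
      have hL : Lpow (MvPolynomial.C c * ∏ i, f i ^ a i) (-(m * Nat.card σ)) =
          Li (LL (MvPolynomial.C c * ∏ i, f i ^ a i)) ^ (m * Fintype.card σ) := by
        rw [Nat.card_eq_fintype_card]
        unfold Lpow Li
        rw [← Units.val_pow_eq_pow_val, inv_pow, ← zpow_natCast, ← zpow_neg]
        push_cast
        rfl
      rw [hχ m hm hω, hL, hJ k σ ι _ _ χ f a c m hm hω]
      refine (mul_comm _ _).trans ((hu m hm).trans ?_)
      have e4 : v m = u m := by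
        rw [hv]
        exact if_neg hm
      rw [e4]
      exact congrArg (· + u m) (Finset.sum_congr rfl fun p _ => (hsm p m hm).symm)
  refine ⟨P, ?_, ?_⟩
  · intro q hq
    obtain ⟨h1, h2, i, h3⟩ := hP q hq
    refine ⟨h2, i, ?_⟩
    rw [← h3]
    ring
  · rw [hZf]
    apply zetaRing_add
    · apply zetaRing_sum
      intro p hpT
      exact zetaRing_mono _ (fun q hq => Finset.mem_union_right _
        (Finset.mem_biUnion.2 ⟨p, hpT, hq⟩)) (hsz p hpT)
    · exact zetaRing_mono _ Finset.subset_union_left hPz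

end Pool.Agent.ISO.Z.H42
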